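import Pool.Agent.Y969.GP.Def3

set_option autoImplicit false

/-! Job GP-CT: continuity of the Dirichlet polynomials, the diagonal part and `ff`. -/

namespace Pool.Agent.Y86.GP

open Complex Filter Topology MeasureTheory Set Pool.Agent.Y969.GP

lemma V_cont (h : S_V) : ContinuousOn V (Ioi 0) := fun x hx =>
  (h.2.1 x hx).continuousAt.continuousWithinAt

lemma ht_pos {X : ℕ} {p : ℕ × ℕ} (hp : p ∈ PS X) : 0 < ht p := by
  unfold PS at hp
  rw [Finset.mem_filter, Finset.mem_product, Finset.mem_Icc, Finset.mem_Icc] at hp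
  have h1 : 0 < p.1 := hp.1.1.1
  have h2 : 0 < p.2 := hp.1.2.1
  unfold ht
  positivity

lemma co_cont (h : S_V) {X : ℕ} {p : ℕ × ℕ} (hp : p ∈ PS X) : ContinuousOn (co p) (Ioi 0) := by
  have hh := ht_pos hp
  have h1 : ContinuousOn (fun u : ℝ => V (2 * Real.pi * ht p / u)) (Ioi 0) := by
    refine ContinuousOn.comp (g := V) (f := fun u : ℝ => 2 * Real.pi * ht p / u) (t := Ioi 0)
      (V_cont h) ?_ ?_
    · exact continuousOn_const.div continuousOn_id fun x hx => (mem_Ioi.1 hx).ne'
    · intro x hx
      have hx' : 0 < x := hx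
      show 0 < 2 * Real.pi * ht p / x
      positivity
  unfold co
  exact continuousOn_const.mul h1

lemma cc_cont {n : ℕ} (j : Fin (n + 1)) :
    Continuous (fun q : (Fin n → ℝ) × ℝ => q.2 + cc q.1 j) := by
  unfold cc
  refine Fin.cases ?_ (fun i => ?_) j
  · simp only [Fin.cons_zero, add_zero]
    exact continuous_snd
  · simp only [Fin.cons_succ]
    exact continuous_snd.add ((continuous_apply i).comp continuous_fst)

lemma exp_cont (l : ℝ) : Continuous fun u : ℝ => cexp (I * ((u * l : ℝ) : ℂ)) := by
  fun_prop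

lemma term_cont (h : S_V) {X : ℕ} {p : ℕ × ℕ} (hp : p ∈ PS X) :
    ContinuousOn (fun u : ℝ => (co p u : ℂ) * cexp (I * ((u * lam p : ℝ) : ℂ))) (Ioi 0) :=
  (continuous_ofReal.comp_continuousOn (co_cont h hp)).mul (exp_cont _).continuousOn

lemma PX_cont (h : S_V) (X : ℕ) : ContinuousOn (PX X) (Ioi 0) := by
  unfold PX
  exact continuousOn_finsetSum _ fun p hp => term_cont h hp

lemma ff_cont : Continuous ff := by
  unfold ff
  have h1 : Continuous fun u : ℝ => riemannZeta (1 / 2 + I * u) := by
    rw [continuous_iff_continuousAt]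
    intro u
    have h2 : ContinuousAt riemannZeta (1 / 2 + I * u) := by
      refine (differentiableAt_riemannZeta ?_).continuousAt
      intro e
      have := congrArg Complex.re e
      simp at this
    exact ContinuousAt.comp (f := fun u : ℝ => (1 / 2 + I * u : ℂ)) (g := riemannZeta) h2
      (by fun_prop)
  exact (h1.norm).pow 2

theorem t_CT (h : S_V) : S_CT := by
  intro n X
  refine ⟨?_, ?_, ?_⟩
  · refine continuousOn_finsetProd _ fun j _ => ?_
    exact (PX_cont h X).comp (cc_cont j).continuousOn fun q hq => hq j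
  · unfold MX
    refine continuousOn_finsetSum _ fun r hr => continuousOn_finsetProd _ fun j _ => ?_
    have hr' : r j ∈ PS X := Fintype.mem_piFinset.1 (Finset.mem_filter.1 hr).1 j
    exact (term_cont h hr').comp (cc_cont j).continuousOn fun q hq => hq j
  · exact continuous_finsetProd _ fun j _ => ff_cont.comp (cc_cont j)

end Pool.Agent.Y86.GP
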